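import Pool.Agent.X35.SP.Fin

/-!
# The sets of bad reduction of tuples of points near thin sequences

Szpiro's small points conjecture asks for points of small height on all semistable curves over a
number field `K` with a given set `S` of places of bad reduction. We consider the hyperelliptic
curves of arbitrary genus (more generally the cyclic covers of the projective line) with branch
points in `K`, through their branch points: `n`-tuples `P` of different points of the projective
line, up to automorphisms over `K`. Let `N_S(P)` be the product of the norms of the primes of bad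
reduction of `P` outside a finite set `S` of primes.

Let `v_l ≥ 1` be a thin sequence, `∑ v_l ^ (-t) < ∞` for all `t > τ` (`τ = 0` for `v_l = b ^ l`), and
`ρ < 1`.

1. For `n ≥ 4` and `k ≥ 1` there is a set `E` of real numbers of Hausdorff dimension at most
   `(1 - 2 / (k (n choose 2)) + τ) / (1 - ρ)` such that for all `α` outside `E`, all number fields
   `K`, all finite sets `S` of primes of `K` and all `c`, for all `l` from some point on: if an
   integer `N ≥ 1` with `|N - α v_l| ≤ c v_l ^ ρ` is divisible by `N_S(P)` for an `n`-tuple `P` over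
   `K`, then `N_S(P) ^ k < N`. In particular (`k = 1`) there is no `n`-tuple at all with
   `|N_S(P) - α v_l| ≤ c v_l ^ ρ`.
2. If `τ + ρ ≤ 0`, for instance for `v_l = b ^ l` and `ρ = 0`, the same holds for almost all real `α`
   for all `n`, `k`, `K`, `S` and `c` at the same time.
-/

set_option autoImplicit false

namespace Pool.Agent.Results.MP_fe3691_nt.ConductorsNearSequences

open NumberField IsDedekindDomain MeasureTheory
open Pool.Agent.X61.RI.Tup (Distinct GoodAt)

/-- the exponent of convergence of `v` is at most `τ` -/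
def ExpLe (v : ℕ → ℝ) (τ : ℝ) : Prop := ∀ t : ℝ, τ < t → Summable (fun l : ℕ => (v l) ^ (-t))

/-- the product of the absolute norms of the primes of bad reduction of `P` outside `S` -/
noncomputable def conductor {K : Type} [Field K] [NumberField K]
    (S : Finset (HeightOneSpectrum (𝓞 K))) {n : ℕ} (P : Fin n → Fin 2 → K) : ℕ :=
  ∏ᶠ (v : HeightOneSpectrum (𝓞 K)) (_ : v ∈ {v : HeightOneSpectrum (𝓞 K) | v ∉ S ∧ ¬ GoodAt v P}),
    Ideal.absNorm v.asIdeal

/-- for all number fields, all finite sets `S` of primes and all `c`: near `α v_l`, `l ≥ l₀`, all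
`n`-tuples whose conductor outside `S` divides the integer `N` have a conductor less than
`N ^ (1 / k)` -/
def OnlySmall (n k : ℕ) (v : ℕ → ℝ) (ρ α : ℝ) : Prop :=
  ∀ (K : IntermediateField ℚ (AlgebraicClosure ℚ)) [NumberField K]
    (S : Finset (HeightOneSpectrum (𝓞 K))) (c : ℝ), ∃ l₀ : ℕ, ∀ l : ℕ, l₀ ≤ l →
    ∀ N : ℕ, 1 ≤ N → |(N : ℝ) - α * v l| ≤ c * (v l) ^ ρ →
    ∀ P : Fin n → Fin 2 → K, Distinct P → conductor S P ∣ N → (conductor S P) ^ k < N

/-- **Conductors of tuples of points near thin sequences.** Let `v l ≥ 1` be a sequence with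
exponent of convergence at most `τ` and `ρ < 1`.

(1) For `n ≥ 4` and `k ≥ 1` there is a set `E` of real numbers of Hausdorff dimension at most
`(1 - 2 / ((n choose 2) k) + τ) / (1 - ρ)` such that for every `α` outside `E`, every number
field `K`, every finite set `S` of primes of `K` and every `c`, for all large `l`: if the
conductor outside `S` of an `n`-tuple of different points of the projective line over `K` divides
an integer `N ≥ 1` with `|N - α v_l| ≤ c v_l ^ ρ`, then its `k`-th power is less than `N`.

(2) For `τ + ρ ≤ 0` this holds for almost all `α` for all `n ≥ 4` and `k ≥ 1` at the same time. -/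
theorem result (v : ℕ → ℝ) (τ ρ : ℝ) (hv1 : ∀ l, 1 ≤ v l) (hτ : 0 ≤ τ) (hρ : ρ < 1)
    (hv : ExpLe v τ) :
    (∀ n k : ℕ, 4 ≤ n → 1 ≤ k → ∃ E : Set ℝ,
      dimH E ≤ ENNReal.ofReal ((1 - 2 / (n.choose 2 * k : ℕ) + τ) / (1 - ρ)) ∧
      ∀ α : ℝ, α ∉ E → OnlySmall n k v ρ α) ∧
    (τ + ρ ≤ 0 → ∀ᵐ α : ℝ, ∀ n k : ℕ, 4 ≤ n → 1 ≤ k → OnlySmall n k v ρ α) := by
  refine ⟨fun n k hn hk => ?_, fun h0 => ?_⟩
  · obtain ⟨E, hE, h⟩ := Pool.Agent.X35.SP.near_mults hn hk hv1 hτ hv hρ
    exact ⟨E, hE, fun α hα K hK S c => h α hα ⟨K, hK.to_finiteDimensional⟩ S c⟩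
  · filter_upwards [Pool.Agent.X35.SP.ae_mults hv1 hτ hv h0] with α hα n k hn hk K hK S c
    exact hα n k hn hk ⟨K, hK.to_finiteDimensional⟩ S c

end Pool.Agent.Results.MP_fe3691_nt.ConductorsNearSequences
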