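import Pool.Agent.X61.RI.TupH

/-!
# Small Weierstrass points for infinite random sets of primes of bad reduction

Szpiro's small points conjecture asks for points of small height on the curves with given bad
reduction. We consider the hyperelliptic curves `y ^ 2 = f(x)` of arbitrary genus (more generally
the cyclic covers of the projective line) over a number field `K` with branch points in `K`, through
their branch points: `n`-tuples of different points of the projective line. (Outside the primes
dividing the degree of the cover, the branch points have good reduction where the curve has.) The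
heights of the Weierstrass points are controlled by the cross ratios of the branch points.

Let `T` be a random set of primes of `K`: the events `v ∈ T` are independent and of probability at
most `N(v) ^ (-τ)`; for `τ ≤ 1` such a set can be infinite. Let `M > 1/3`. There is `ν > 0`, which
depends only on `K` and `M`, such that for `τ > 2/3 - ν` with probability one for ALL finite sets `S`
of primes there is a constant `C` such that for all `n ≥ 3` and all `n`-tuples of different points of
the projective line over `K` with good reduction outside `S ∪ T`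

1. all cross ratios have height at most `C + M log N` (the height is relative to `K`), where `N` is
   the product of the norms of the primes of bad reduction of the tuple;
2. the norm `|D|` of the minimal discriminant satisfies Szpiro's inequality
   `log |D| ≤ C n ^ 2 + 2 (n - 1) (n - 3) M log N`.

So, after three of the Weierstrass points are moved to `∞, 0, 1`, all Weierstrass points have heights
which are at most a constant plus a linear function of `log N`, as in the bound which is known to
follow from Frey's height conjecture.
-/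

set_option autoImplicit false

namespace Pool.Agent.Results.MP_fe3691_nt.SmallPointsRandomPrimes

open NumberField IsDedekindDomain MeasureTheory ProbabilityTheory
open Pool.Agent.X61.RI.Tup (Distinct GoodAt cr logDisc logBad)

/-- the absolute norm of a prime -/
noncomputable def norm {K : Type} [Field K] [NumberField K] (v : HeightOneSpectrum (𝓞 K)) : ℝ :=
  (Ideal.absNorm v.asIdeal : ℝ)

/-- **Heights and minimal discriminants of tuples of points, with bad reduction at the primes of
an infinite random set.** Let `K` be a number field and `M > 1/3`. There is `ν > 0` such that the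
following holds for all `τ ≥ 0` with `τ > 2/3 - ν` and all independent events `E v` (`v` a prime of
`K`) of probability at most `N(v) ^ (-τ)`. Let `T = {v | ω ∈ E v}`. With probability one for every
finite set `S` of primes there is a constant `C` such that for all `n ≥ 3` and all `n`-tuples `P` of
different points of the projective line over `K` with good reduction outside `S ∪ T`

(1) the height of the cross ratio of any four different points of `P` is at most `C + M log N`,

(2) the logarithm of the norm of the minimal discriminant of `P` is at most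
`C n ^ 2 + 2 (n - 1) (n - 3) M log N`,

where `N` is the product of the norms of the primes of bad reduction of `P`. -/
theorem result (K : Type) [Field K] [NumberField K] (M : ℝ) (hM : 1 / 3 < M) :
    ∃ ν : ℝ, 0 < ν ∧ ∀ τ : ℝ, 0 ≤ τ → 2 / 3 - ν < τ →
    ∀ (Ω : Type) [MeasurableSpace Ω] (μ : Measure Ω) (E : HeightOneSpectrum (𝓞 K) → Set Ω),
      iIndepSet E μ → (∀ v, μ (E v) ≤ ENNReal.ofReal (norm v ^ (-τ))) →
      ∀ᵐ ω ∂μ, ∀ S : Finset (HeightOneSpectrum (𝓞 K)), ∃ C : ℝ,
        ∀ (n : ℕ) (P : Fin n → Fin 2 → K), 3 ≤ n → Distinct P →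
        (∀ v : HeightOneSpectrum (𝓞 K), v ∉ S → ω ∉ E v → GoodAt v P) →
        (∀ i j k l : Fin n, i ≠ j → i ≠ k → i ≠ l → j ≠ k → j ≠ l → k ≠ l →
          Height.logHeight₁ (cr (P i) (P j) (P k) (P l)) ≤ C + M * logBad P) ∧
        logDisc P ≤ C * n ^ 2 + 2 * ((n : ℝ) - 1) * ((n : ℝ) - 3) * (M * logBad P) := by
  obtain ⟨ν, hν, h⟩ := Pool.Agent.X61.RI.Tup.units_height (K := K) hM
  refine ⟨ν, hν, fun τ hτ0 hτ Ω _ μ E hi hE => ?_⟩
  filter_upwards [h τ hτ0 hτ μ E hi hE] with ω hω S
  obtain ⟨C, hC0, hC⟩ := hω S
  have ha := Pool.Agent.X61.RI.Tup.arc_nonneg (K := K)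
  refine ⟨2 * C + Pool.Agent.X61.RI.Tup.arc K, fun n P hn hP hg => ?_⟩
  have hcr : ∀ i j k l : Fin n, i ≠ j → i ≠ k → i ≠ l → j ≠ k → j ≠ l → k ≠ l →
      Height.logHeight₁ (cr (P i) (P j) (P k) (P l)) ≤ C + M * logBad P := by
    intro i j k l hij hik hil hjk hjl hkl
    obtain ⟨c0, c1⟩ := Pool.Agent.X61.RI.Tup.cr_off hP hij hik hil hjk hjl hkl
    refine (hC _ c0 c1 fun v hv => ?_).trans ?_
    · by_contra hcon
      rw [not_or] at hcon
      exact hv (Pool.Agent.X61.RI.Tup.unitAt_of_good (hg v hcon.1 hcon.2)
        hij hik hil hjk hjl hkl)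
    · have h1 := Pool.Agent.X61.RI.Tup.cr_bad hP hij hik hil hjk hjl hkl
      have h2 := mul_le_mul_of_nonneg_left h1 (by linarith : 0 ≤ M)
      exact add_le_add le_rfl h2
  refine ⟨fun i j k l hij hik hil hjk hjl hkl => ?_, ?_⟩
  · have := hcr i j k l hij hik hil hjk hjl hkl
    linarith
  · have h01 : (⟨0, by omega⟩ : Fin n) ≠ ⟨1, by omega⟩ := by
      rw [Ne, Fin.mk.injEq]
      omega
    have h02 : (⟨0, by omega⟩ : Fin n) ≠ ⟨2, by omega⟩ := by
      rw [Ne, Fin.mk.injEq]
      omega
    have h12 : (⟨1, by omega⟩ : Fin n) ≠ ⟨2, by omega⟩ := by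
      rw [Ne, Fin.mk.injEq]
      omega
    have h3 := Pool.Agent.X61.RI.Tup.logDisc_le hP h01 h02 h12 (X := C + M * logBad P)
      fun i a0 a1 a2 => hcr _ _ _ i h01 h02 a0.symm h12 a1.symm a2.symm
    have hn3 : (3 : ℝ) ≤ n := by exact_mod_cast hn
    have h4 : 2 * ((n : ℝ) - 1) * (((n : ℝ) - 3) * C) ≤ 2 * C * n ^ 2 := by
      have : ((n : ℝ) - 1) * ((n : ℝ) - 3) ≤ n ^ 2 := by nlinarith
      nlinarith
    have h5 : (n : ℝ) * ((n : ℝ) - 1) * Pool.Agent.X61.RI.Tup.arc K ≤
        Pool.Agent.X61.RI.Tup.arc K * n ^ 2 := by
      have : (n : ℝ) * ((n : ℝ) - 1) ≤ n ^ 2 := by nlinarith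
      nlinarith
    calc logDisc P ≤ _ := h3
      _ = 2 * ((n : ℝ) - 1) * (((n : ℝ) - 3) * C) +
          2 * ((n : ℝ) - 1) * ((n : ℝ) - 3) * (M * logBad P) +
          n * ((n : ℝ) - 1) * Pool.Agent.X61.RI.Tup.arc K := by ring
      _ ≤ _ := by linarith

end Pool.Agent.Results.MP_fe3691_nt.SmallPointsRandomPrimes
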